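import Pool.Agent.Lib.MP_abd978_an.All
import Pool.Agent.Lib.MP_abd978_an.UN.H10.Concl
import Pool.Agent.Lib.MP_abd978_an.UN.H10.Final
import Pool.Agent.Lib.MP_abd978_an.UN.H10.Froz
import Pool.Agent.Lib.MP_abd978_an.UN.H10.Mass
import Pool.Agent.Lib.MP_abd978_an.UN.H10.Rega
import Pool.Agent.Lib.MP_abd978_an.UN.H10.Tz
import Pool.Agent.Lib.MP_abd978_an.UN.H15.Tyx
import Pool.Agent.Lib.MP_abd978_an.UN.H2.Pole
import Pool.Agent.Lib.MP_abd978_an.UN.H26.Goode
import Pool.Agent.Lib.MP_abd978_an.UN.H26.Step
import Pool.Agent.Lib.MP_abd978_an.UN.H29.Leb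
import Pool.Agent.Lib.MP_abd978_an.UN.H30.Alg
import Pool.Agent.Lib.MP_abd978_an.UN.H30.Dual
import Pool.Agent.Lib.MP_abd978_an.UN.H36.Oscp
import Pool.Agent.Lib.MP_abd978_an.UN.H36.Riem
import Pool.Agent.Lib.MP_abd978_an.UN.H37.Ker
import Pool.Agent.Lib.MP_abd978_an.UN.H10.Bade
import Pool.Agent.Lib.MP_abd978_an.UN.H38.Ego
import Pool.Agent.Lib.MP_abd978_an.UN.H38.Qo
import Pool.Agent.Lib.MP_abd978_an.UN.H47.Const
import Pool.Agent.Lib.MP_abd978_an.UN.H48.Locm
import Pool.Agent.Lib.MP_abd978_an.UN.H48.Solve
import Pool.Agent.Lib.MP_abd978_an.UN.H49.Pgrow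
import Pool.Agent.Lib.MP_abd978_an.UN.H49.Scale
import Pool.Agent.Lib.MP_abd978_an.UN.H49.Sigz
import Pool.Agent.Lib.MP_abd978_an.UN.H52.Chainf
import Pool.Agent.Lib.MP_abd978_an.UN.H52.Ed
import Pool.Agent.Lib.MP_abd978_an.UN.H52.Geov
import Pool.Agent.Lib.MP_abd978_an.UN.H52.H0c
import Pool.Agent.Lib.MP_abd978_an.UN.H52.Morrey
import Pool.Agent.Lib.MP_abd978_an.UN.H65.Comp
import Pool.Agent.Lib.MP_abd978_an.UN.H72.Lip
import Pool.Agent.Lib.MP_abd978_an.UN.H82.Lsob
import Pool.Agent.Lib.MP_abd978_an.UN.H82.Mult
import Pool.Agent.Lib.MP_abd978_an.UN.H82.Scont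
import Pool.Agent.Lib.MP_abd978_an.UN.H83.Cpf
import Pool.Agent.Lib.MP_abd978_an.UN.H83.Part
import Pool.Agent.Lib.MP_abd978_an.UN.H87.Geo
import Pool.Agent.Lib.MP_abd978_an.UN.H88.Dirapp
import Pool.Agent.Lib.MP_abd978_an.UN.H88.Riga
import Pool.Agent.Lib.MP_abd978_an.UN.H88.Rigb
import Pool.Agent.Lib.MP_abd978_an.UN.H92.Stab
import Pool.Agent.Lib.MP_abd978_an.UN.H94.Capf
import Pool.Agent.Lib.MP_abd978_an.UN.H94.Potb

/-!
# Project UNW: all modules together
-/

set_option autoImplicit false

namespace Pool.Agent.Lib.MP_abd978_an.UN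

theorem all : UN.FinalStatement := by
  have hcut : CutStatement := MP_abd978_an.H10.cut
  have hchain : ChainStatement := MP_abd978_an.H58.chain
  have hbchain : BchainStatement := MP_abd978_an.H58.bchain
  have hintg : IntgStatement := MP_abd978_an.H86.intg
  have hpair : PairStatement := MP_abd978_an.H86.pair
  have hsob1 : Sob1Statement := MP_abd978_an.H36.sob1
  have hsob2 : Sob2Statement := MP_abd978_an.H36.sob2
  have hpoix : PoixStatement := MP_abd978_an.H55.poix hchain hcut
  have hweak : WeakStatement := weak hchain hpair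
  have hcacc : CaccStatement := MP_abd978_an.H1.cacc hweak hintg
  have hcacp : CacpStatement := MP_abd978_an.H86.cacp hcacc
  have hmos1 : Mos1Statement := MP_abd978_an.H11.mos1 hcut hchain hsob2 hcacp
  have hmos2 : Mos2Statement := MP_abd978_an.H11.mos2 hmos1
  have hdens : DensStatement := MP_abd978_an.H55.dens hcacc hcut hpoix hmos2
  have hosc : MP_abd978_an.OscStatement := MP_abd978_an.H72.osc hdens
  have hrep : RepStatement := MP_abd978_an.H49.rep_statement hosc
  have hhalg : HalgStatement := MP_abd978_an.H36.halg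
  have hdensc : DenscStatement := MP_abd978_an.H42.densc hdens
  have hmosc : MoscStatement := MP_abd978_an.H42.mosc hmos2
  have hharn : HarnStatement := MP_abd978_an.H42.harn hdensc hmosc
  have hchn : ChnStatement := MP_abd978_an.H61.chn
  have hsph : SphStatement := MP_abd978_an.H61.sph hchn hharn
  have halt : AltStatement := MP_abd978_an.H98.alt
  have huci : UciStatement := MP_abd978_an.H98.uci
  have hnest : NestStatement := MP_abd978_an.H98.nest huci
  have hminty : MintyStatement := MP_abd978_an.H98.minty halt
  have hopl : OplStatement := MP_abd978_an.H65.opl hintg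
  have hdir : DirStatement := MP_abd978_an.H65.dir hintg hsob1 hnest hminty hopl
  have hpotx : PotxStatement := MP_abd978_an.H49.potx hdir hbchain hpair hsob1 hintg hrep
  have hpmin : PminStatement := MP_abd978_an.H7.pmin hcut hbchain hpair hsob1 hintg
  have hpmax : PmaxStatement := MP_abd978_an.H7.pmax hcut hbchain hpair hsob1 hintg
  have hmorrey : MorreyStatement := H52.morrey
  have hh0c : H0cStatement := H52.h0c
  have hgeov : GeovStatement := H52.geov
  have hlsob : LsobStatement := H82.lsob
  have hlsobl : LsoblStatement := H82.lsobl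
  have hmult : MultStatement := H82.mult
  have hltest : LtestStatement := H82.ltest hpair hlsob
  have huniq : UniqStatement := H82.uniq
  have hcomp : CompStatement := H65.comp hchain hintg hpair hsob1
  have hscale : ScaleStatement := H49.scale
  have hmonc : MoncStatement := H49.monc
  have hpotb : PotbStatement := H94.potb hmorrey hh0c hbchain hcut hcacc hpair hintg hpmin hpmax
    hhalg hsph
  have hlip : LipStatement := H72.lip hpotb hcomp hpotx pharm hhalg
  have hlipl : LiplStatement := H72.lipl hlip
  have hqo : QoStatement := H38.qo hpotb hpotx pharm hhalg hharn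
  have hdist : DistStatement := H10.dist_thm hqo
  have hcapf : CapfStatement := H94.capf hpotb hpotx pharm hweak hintg hcacc hchain
  have hmass : MassStatement := H10.mass hcapf hmorrey
  have hdisc : DiscStatement := H10.disc hcapf hmorrey
  have hed : EdStatement := H52.ed
  have hleb : LebStatement := H29.leb
  have hstab : StabStatement := H92.stab hcut hchain hpair hintg hlsob
  have hdirapp : DirappStatement := H88.dirapp hh0c hmonc hdir hintg hpair
  have hriga : RigaStatement := H88.riga
  have hrigb : RigbStatement := H88.rigb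
  have hfroz : FrozStatement := H10.froz hdirapp hstab hriga hrigb hscale
  have hrega : RegaStatement := H10.rega hlipl hdist hmass hed hleb hfroz
  have hchainf : ChainfStatement := H52.chainf hmult hlsobl
  have htyx : TyxStatement := H15.tyx hchainf hltest huniq hintg
  have hsolve : SolveStatement := H48.solve hintg hsob1 hnest hminty hopl hh0c
  have hsbound : SboundStatement := H48.sbound hintg
  have hscont : ScontStatement := H82.scont hmonc hsbound
  have hker : KerStatement := H37.kerS hh0c
  have hpgrow : PgrowStatement := H49.pgrow hcut hintg hhalg hpotx pharm hmult hcomp hpotb hker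
  have hpole : PoleStatement := H2.pole hker hpgrow
  have hriem : RiemStatement := H36.riem hsolve hscont hker hpole
  have hdual : DualStatement := H30.dual hh0c hsolve hsbound hscont hriem hker hnest
  have hoscp : OscpStatement := H36.oscp hlsob
  have htz : TzStatement := H10.tz hdual hoscp
  have hsigz : SigzStatement := H49.sigz htyx htz
  have hgeo : GeoStatement := H87.geo hmorrey hlsobl
  have hego : EgoStatement := H38.ego
  have hpart : PartStatement := H83.part
  have hcpf : CpfStatement := H83.cpf
  have halg : AlgStatement := H30.alg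
  have hbade : BadeStatement := H10B.bade hgeo
  have hstep : StepStatement := H26.step halg hbade hego hpart hcpf
  have hconst : ConstStatement := H47.const
  have hconcl : ConclStatement := H10.concl hrega hsigz hstep hconst hlip hdisc hmorrey hlsobl
  have hlocm : LocmStatement := H48.locm hgeov
  exact H10.final hconcl hlocm MP_abd978_an.all

end Pool.Agent.Lib.MP_abd978_an.UN
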