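import Pool.Agent.Lib.MP_abd978_an.Interfaces

/-!
# Project UNW: the unweighted case `dμ = dx`, `p > n`, in all dimensions

Notions and statements of the modules. See `Paper.md` for the proofs. A module `XXX` proves
`theorem xxx : XxxStatement`; other statements may be assumed as hypotheses.
-/

set_option autoImplicit false

open MeasureTheory Metric Set Filter Topology ContDiff
open scoped Gradient RealInnerProductSpace NNReal ENNReal

namespace Pool.Agent.Lib.MP_abd978_an.UN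

/-! ### Notions -/

/-- the exponent `(p - n)/(p - 1)` -/
noncomputable def al (n : ℕ) (p : ℝ) : ℝ := (p - n) / (p - 1)

/-- the dual exponent `p/(p - 1)` -/
noncomputable def dx (p : ℝ) : ℝ := p / (p - 1)

/-- the standing assumptions: `a` is the target operator, `b` the source operator -/
structure Dat (n : ℕ) (p : ℝ) (a : E n → E n → E n) (α β : ℝ) (b : E n → E n → E n)
    (α' β' : ℝ) : Prop where
  hn : 2 ≤ n
  hp : (n : ℝ) < p
  opa : Op p volume a α β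
  opb : Op p volume b α' β'

/-- `(b, a)`-harmonic morphisms, `dμ = dx` -/
structure Mor {n : ℕ} (p : ℝ) (a b : E n → E n → E n) (Ω : Set (E n)) (f : E n → E n) :
    Prop where
  isOpen : IsOpen Ω
  cont : ContinuousOn f Ω
  meas : Measurable f
  mor : ∀ (V : Set (E n)) (u : E n → ℝ), IsOpen V → Harm volume p a V u →
    Harm volume p b (Ω ∩ f ⁻¹' V) (u ∘ f)

/-- locally Lipschitz in `Ω` -/
def LocLip {n : ℕ} {F : Type} [NormedAddCommGroup F] (Ω : Set (E n)) (f : E n → F) : Prop :=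
  ∀ x ∈ Ω, ∃ K : ℝ≥0, ∃ U ∈ 𝓝 x, LipschitzOnWith K f U

/-- Lipschitz functions with compact support in `Ω` -/
def LipC {n : ℕ} (Ω : Set (E n)) (φ : E n → ℝ) : Prop :=
  (∃ K : ℝ≥0, LipschitzWith K φ) ∧ HasCompactSupport φ ∧ tsupport φ ⊆ Ω

/-- the transpose of the derivative -/
noncomputable def Dt {n : ℕ} (f : E n → E n) (x : E n) : E n →L[ℝ] E n :=
  ContinuousLinearMap.adjoint (fderiv ℝ f x)

/-- Lebesgue points of operators: in measure, uniformly for bounded `ξ` -/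
def IsLeb {n : ℕ} (a : E n → E n → E n) (x₀ : E n) : Prop := ∀ s M ε : ℝ, 0 < ε →
  Tendsto (fun r : ℝ => volume {y : E n | y ∈ ball 0 s ∧
    ∃ ξ : E n, ‖ξ‖ ≤ M ∧ ε ≤ ‖a (x₀ + r • y) ξ - a x₀ ξ‖}) (𝓝[>] 0) (𝓝 0)

/-- operators which do not depend on `x` -/
structure Frz {n : ℕ} (p : ℝ) (A : E n → E n) : Prop where
  cont : Continuous A
  mono : ∀ ξ η, ξ ≠ η → 0 < ⟪A ξ - A η, ξ - η⟫
  hom : ∀ (l : ℝ) ξ, 0 < l → A (l • ξ) = l ^ (p - 1) • A ξ
  neg : ∀ ξ, A (-ξ) = -A ξ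

/-- Everything about `f` which is needed after the first part. -/
structure Reg {n : ℕ} (p : ℝ) (a b : E n → E n → E n) (Ω : Set (E n)) (f : E n → E n)
    (m : E n → ℝ) (c C : ℝ) : Prop where
  hc : 0 < c
  hC : 0 < C
  isOpen : IsOpen Ω
  meas : Measurable f
  loclip : LocLip Ω f
  measm : Measurable m
  diff : ∀ᵐ x : E n, x ∈ Ω → DifferentiableAt ℝ f x
  dist : ∀ᵐ x : E n, x ∈ Ω → ∀ η, c * ‖fderiv ℝ f x‖ * ‖η‖ ≤ ‖Dt f x η‖
  lower : ∀ᵐ x : E n, x ∈ Ω → c * ‖fderiv ℝ f x‖ ^ p ≤ m x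
  upper : ∀ᵐ x : E n, x ∈ Ω → m x ≤ C * ‖fderiv ℝ f x‖ ^ p
  fr : ∀ᵐ x : E n, x ∈ Ω → ∀ ξ, fderiv ℝ f x (b x (Dt f x ξ)) = m x • a (f x) ξ
  ed : ∀ K : Set (E n), IsCompact K → K ⊆ Ω → ∃ C' : ℝ≥0, ∀ g : E n → ℝ≥0∞, Measurable g →
    ∫⁻ x in K, g (f x) * ENNReal.ofReal (‖fderiv ℝ f x‖ ^ p) ≤ C' * ∫⁻ z, g z

/-- The transferred function `T` and the transferred gradient `Y` on the target. -/
structure TY {n : ℕ} (p : ℝ) (a : E n → E n → E n) (T : E n → ℝ) (Y : E n → E n) (R : ℝ) :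
    Prop where
  measT : Measurable T
  bdd : ∃ C : ℝ, ∀ z, |T z| ≤ C
  memY : MemLp Y (ENNReal.ofReal p) volume
  hR : 0 < R
  supp : ∀ z, R ≤ ‖z‖ → T z = 0 ∧ Y z = 0
  q : ∀ (V : Set (E n)) (u : E n → ℝ) (U : E n → E n) (ψ : E n → ℝ), IsOpen V →
    ContinuousOn u V → LocSob volume p V u U → Eqn volume a V U → Test V ψ →
      ∫ z, ⟪a z (U z), T z • ∇ ψ z + ψ z • Y z⟫ = 0

/-- solutions of `div a(x, ∇ u) = div H` in the ball, zero boundary values -/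
structure Sol {n : ℕ} (p : ℝ) (a : E n → E n → E n) (R : ℝ) (H : E n → E n) (u : E n → ℝ)
    (U : E n → E n) : Prop where
  h0 : H0 volume p (ball 0 R) u U
  cont : Continuous u
  eqn : ∀ (ψ : E n → ℝ) (V : E n → E n), H0 volume p (ball 0 R) ψ V →
    ∫ x, ⟪a x (U x), V x⟫ = ∫ x, ⟪H x, V x⟫

/-- Lebesgue points of functions -/
def LebPt {n : ℕ} (T : E n → ℝ) (z : E n) : Prop :=
  Tendsto (fun r : ℝ => ⨍ y in ball z r, |T y - T z|) (𝓝[>] 0) (𝓝 0)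

/-- a fundamental vector field: `∫ ⟪ker z, ∇ψ⟫ = ψ z` -/
noncomputable def ker {n : ℕ} (z x : E n) : E n :=
  (-((n : ℝ) * volume.real (ball (0 : E n) 1))⁻¹ * (‖x - z‖ ^ n)⁻¹) • (x - z)

/-- the divergence -/
noncomputable def dvg {n : ℕ} (H : E n → E n) (x : E n) : ℝ :=
  ∑ j : Fin n, fderiv ℝ H x (EuclideanSpace.single j 1) j

/-! ### The determinants of the third part (`n = N + 1`) -/

/-- the determinant of `N + 1` vectors -/
noncomputable def bdet (N : ℕ) : (E (N + 1)) [⋀^Fin (N + 1)]→ₗ[ℝ] ℝ :=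
  (EuclideanSpace.basisFun (Fin (N + 1)) ℝ).toBasis.det

/-- the vectors `e_j` (`inl j`) and `∇ f_l(x)` (`inr l`) -/
noncomputable def col {N : ℕ} (f : E (N + 1) → E (N + 1)) (x : E (N + 1)) :
    Fin (N + 1) ⊕ Fin (N + 1) → E (N + 1)
  | Sum.inl j => EuclideanSpace.single j 1
  | Sum.inr l => Dt f x (EuclideanSpace.single l 1)

/-- `det [v, w(0), ..., w(N - 1)]` for a word `w` -/
noncomputable def mdet {N : ℕ} (f : E (N + 1) → E (N + 1)) (x : E (N + 1))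
    (w : Fin N → Fin (N + 1) ⊕ Fin (N + 1)) (v : E (N + 1)) : ℝ :=
  bdet N (Fin.cons v fun i => col f x (w i))

/-- the same, with the column `i` replaced by `v'` -/
noncomputable def mdet2 {N : ℕ} (f : E (N + 1) → E (N + 1)) (x : E (N + 1))
    (w : Fin N → Fin (N + 1) ⊕ Fin (N + 1)) (i : Fin N) (v v' : E (N + 1)) : ℝ :=
  bdet N (Fin.cons v (Function.update (fun k => col f x (w k)) i v'))

/-- the number of letters `inl` of a word -/
def nl {N : ℕ} (w : Fin N → Fin (N + 1) ⊕ Fin (N + 1)) : ℕ :=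
  (Finset.univ.filter fun i => (w i).isLeft = true).card

/-- The data of the third part. -/
structure Sig {N : ℕ} (p : ℝ) (Ω : Set (E (N + 1))) (f : E (N + 1) → E (N + 1)) : Prop where
  hN : 1 ≤ N
  hp : (N : ℝ) + 1 < p
  isOpen : IsOpen Ω
  meas : Measurable f
  loclip : LocLip Ω f
  inv : ∀ᵐ x : E (N + 1), x ∈ Ω → fderiv ℝ f x = 0 ∨ (fderiv ℝ f x).det ≠ 0
  ed : ∀ K : Set (E (N + 1)), IsCompact K → K ⊆ Ω → ∃ C : ℝ, ∀ (z : E (N + 1)) (ε : ℝ), 0 < ε →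
    ∫ x in K ∩ f ⁻¹' ball z ε, ‖fderiv ℝ f x‖ ^ p ≤ C * ε ^ (N + 1)

/-- bounded multiples of `|Df|^(p - n)` -/
structure SigF {N : ℕ} (p : ℝ) (Ω : Set (E (N + 1))) (f : E (N + 1) → E (N + 1))
    (σ : E (N + 1) → ℝ) : Prop where
  meas : Measurable σ
  bound : ∃ C : ℝ, ∀ᵐ x : E (N + 1), x ∈ Ω → |σ x| ≤ C * ‖fderiv ℝ f x‖ ^ (p - (N + 1))

/-- `P(k)` -/
def PP {N : ℕ} (Ω : Set (E (N + 1))) (f : E (N + 1) → E (N + 1)) (σ : E (N + 1) → ℝ)
    (k : ℕ) : Prop :=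
  ∀ w : Fin N → Fin (N + 1) ⊕ Fin (N + 1), nl w ≤ k → ∀ φ : E (N + 1) → ℝ, LipC Ω φ →
    ∫ x, σ x * mdet f x w (∇ φ x) = 0

/-- the components of `f⁻¹(ball z ε)` -/
def Cp {n : ℕ} (Ω : Set (E n)) (f : E n → E n) (z : E n) (ε : ℝ) (x : E n) : Set (E n) :=
  connectedComponentIn (Ω ∩ f ⁻¹' ball z ε) x

end Pool.Agent.Lib.MP_abd978_an.UN
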