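import Pool.Agent.Lib.MP_abd978_an.UN.Defs

/-!
# Project UNW: the statements proved in the modules

A module `XXX` proves `theorem xxx : XxxStatement` (other statements, also those of
`Pool.Agent.Lib.MP_abd978_an.Interfaces`, may be taken as hypotheses, see `Blueprint.md`).
The statements of the first project (`CutStatement`, `ChainStatement`, ...) are all proved, in
`Pool.Agent.Lib.MP_abd978_an.All`.
-/

set_option autoImplicit false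

open MeasureTheory Metric Set Filter Topology ContDiff
open scoped Gradient RealInnerProductSpace NNReal ENNReal

namespace Pool.Agent.Lib.MP_abd978_an.UN

/-! ### A. General tools -/

/-- MORREY -/
def MorreyStatement : Prop := ∀ (n : ℕ) (q : ℝ), 1 ≤ n → (n : ℝ) < q → ∃ C : ℝ, 0 < C ∧
  ∀ (x₀ : E n) (ρ : ℝ) (u : E n → ℝ) (v : E n → E n), 0 < ρ → ContinuousOn u (ball x₀ ρ) →
  IsSob volume q (ball x₀ ρ) u v → ∀ x ∈ ball x₀ ρ, ∀ y ∈ ball x₀ ρ,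
    |u x - u y| ≤ C * ρ ^ (1 - n / q) * (∫ z in ball x₀ ρ, ‖v z‖ ^ q) ^ (1 / q)

/-- H0C: functions in `H_0` are continuous for `q > n` -/
def H0cStatement : Prop := ∀ (n : ℕ) (q : ℝ), 1 ≤ n → (n : ℝ) < q → ∃ C : ℝ, 0 < C ∧
  ∀ (D : Set (E n)) (z : E n) (R : ℝ) (u : E n → ℝ) (V : E n → E n), 0 < R → IsOpen D →
  D ⊆ ball z R → H0 volume q D u V → ∃ u' : E n → ℝ, Continuous u' ∧ u' =ᵐ[volume] u ∧
    (∀ x, x ∉ D → u' x = 0) ∧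
    ∀ x, |u' x| ≤ C * R ^ (1 - n / q) * (∫ y, ‖V y‖ ^ q) ^ (1 / q)

/-- GEOV: Lebesgue measure, `p > n` -/
def GeovStatement : Prop := ∀ (n : ℕ) (p : ℝ), 1 ≤ n → (n : ℝ) < p →
  Geo p (volume : Measure (E n))

/-- LSOB: Lipschitz functions with compact support -/
def LsobStatement : Prop := ∀ (n : ℕ) (p : ℝ) (D : Set (E n)) (φ : E n → ℝ), 1 < p →
  IsOpen D → LipC D φ → H0 volume p D φ fun x => ∇ φ x

/-- LSOBL: locally Lipschitz functions -/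
def LsoblStatement : Prop := ∀ (n : ℕ) (p : ℝ) (Ω : Set (E n)) (u : E n → ℝ), 1 < p →
  IsOpen Ω → LocLip Ω u → LocSob volume p Ω u fun x => ∇ u x

/-- MULT -/
def MultStatement : Prop := ∀ (n : ℕ) (p : ℝ) (D : Set (E n)) (u : E n → ℝ) (v : E n → E n)
  (η : E n → ℝ), 1 < p → IsOpen D → IsSob volume p D u v → Test D η →
  H0 volume p D (fun x => η x * u x) fun x => u x • ∇ η x + η x • v x

/-- LTEST: Lipschitz test functions -/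
def LtestStatement : Prop := ∀ (n : ℕ) (p : ℝ) (a : E n → E n → E n) (α β : ℝ) (U : Set (E n))
  (u : E n → ℝ) (v : E n → E n) (φ : E n → ℝ), Op p volume a α β → IsOpen U →
  LocSob volume p U u v → Eqn volume a U v → LipC U φ → ∫ x, ⟪a x (v x), ∇ φ x⟫ = 0

/-- UNIQ: weak gradients are unique -/
def UniqStatement : Prop := ∀ (n : ℕ) (p : ℝ) (U : Set (E n)) (u : E n → ℝ) (v v' : E n → E n),
  1 < p → IsOpen U → LocSob volume p U u v → LocSob volume p U u v' →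
    ∀ᵐ x : E n, x ∈ U → v x = v' x

/-- COMP: the comparison principle -/
def CompStatement : Prop := ∀ (n : ℕ) (p : ℝ) (a : E n → E n → E n) (α β : ℝ) (U : Set (E n))
  (u v : E n → ℝ), 1 ≤ n → Op p volume a α β → IsOpen U → Harm volume p a U u →
  Harm volume p a U v →
  (∀ ε : ℝ, 0 < ε → ∃ K : Set (E n), IsCompact K ∧ K ⊆ U ∧ ∀ x ∈ U, x ∉ K → u x ≤ v x + ε) →
    ∀ x ∈ U, u x ≤ v x

/-- SCALE -/
def ScaleStatement : Prop := ∀ (n : ℕ) (p : ℝ) (a : E n → E n → E n) (α β : ℝ) (x₀ : E n)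
  (r : ℝ), 0 < r → Op p volume a α β → Op p volume (fun y ξ => a (x₀ + r • y) ξ) α β ∧
    ∀ (U : Set (E n)) (u : E n → ℝ), IsOpen U → (Harm volume p a U u ↔
      Harm volume p (fun y ξ => a (x₀ + r • y) ξ) ((fun y => x₀ + r • y) ⁻¹' U)
        fun y => u (x₀ + r • y))

/-- MONC: quantitative strict monotonicity -/
def MoncStatement : Prop := ∀ (n : ℕ) (p : ℝ) (A : E n → E n) (M ε : ℝ), Frz p A → 0 < ε →
  ∃ δ : ℝ, 0 < δ ∧ ∀ ξ η : E n, ‖ξ‖ ≤ M → ε ≤ ‖η - ξ‖ → δ ≤ ⟪A η - A ξ, η - ξ⟫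

/-! ### B. First part: regularity of morphisms -/

/-- POTB: potentials of small balls -/
def PotbStatement : Prop := ∀ (n : ℕ) (p : ℝ) (a : E n → E n → E n) (α β : ℝ), 2 ≤ n →
  (n : ℝ) < p → Op p volume a α β → ∃ c C : ℝ, 0 < c ∧ 0 < C ∧
  ∀ (y : E n) (S κ ρ : ℝ) (P : E n → ℝ), IsPot volume p a y S y κ P → 8 * κ ≤ ρ → ρ ≤ S / 2 →
    (∀ z ∈ closedBall y ρ \ closedBall y κ, 1 - P z ≤ C * (ρ / S) ^ al n p) ∧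
    ∀ z ∈ ball y S \ ball y ρ, c * (ρ / S) ^ al n p ≤ 1 - P z

/-- LIP -/
def LipStatement : Prop := ∀ (n : ℕ) (p : ℝ) (a : E n → E n → E n) (α β : ℝ)
  (b : E n → E n → E n) (α' β' : ℝ), Dat n p a α β b α' β' → ∃ C : ℝ, 0 < C ∧
  ∀ (Ω : Set (E n)) (f : E n → E n), Mor p a b Ω f → ∀ (x : E n) (R w : ℝ), 0 < R →
  closedBall x R ⊆ Ω → (∀ z ∈ closedBall x R, dist (f z) (f x) ≤ w) →
    ∀ z ∈ ball x (R / 2), dist (f z) (f x) ≤ C * (w / R) * dist z x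

/-- LIPL -/
def LiplStatement : Prop := ∀ (n : ℕ) (p : ℝ) (a : E n → E n → E n) (α β : ℝ)
  (b : E n → E n → E n) (α' β' : ℝ), Dat n p a α β b α' β' →
  ∀ (Ω : Set (E n)) (f : E n → E n), Mor p a b Ω f → LocLip Ω f

/-- QO: quasi-openness -/
def QoStatement : Prop := ∀ (n : ℕ) (p : ℝ) (a : E n → E n → E n) (α β : ℝ)
  (b : E n → E n → E n) (α' β' : ℝ), Dat n p a α β b α' β' → ∃ C : ℝ, 0 < C ∧
  ∀ (Ω : Set (E n)) (f : E n → E n), Mor p a b Ω f → ∀ (x : E n) (r : ℝ) (y : E n), 0 < r →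
  closedBall x r ⊆ Ω → y ∉ f '' ball x r →
    ∀ z ∈ closedBall x (r / 128), dist (f z) y ≤ C * dist (f x) y

/-- DIST: bounded distortion -/
def DistStatement : Prop := ∀ (n : ℕ) (p : ℝ) (a : E n → E n → E n) (α β : ℝ)
  (b : E n → E n → E n) (α' β' : ℝ), Dat n p a α β b α' β' → ∃ c : ℝ, 0 < c ∧
  ∀ (Ω : Set (E n)) (f : E n → E n), Mor p a b Ω f → ∀ x ∈ Ω, DifferentiableAt ℝ f x →
    ∀ η : E n, c * ‖fderiv ℝ f x‖ * ‖η‖ ≤ ‖Dt f x η‖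

/-- CAPF: the capacity estimate -/
def CapfStatement : Prop := ∀ (n : ℕ) (p : ℝ) (a : E n → E n → E n) (α β : ℝ)
  (b : E n → E n → E n) (α' β' : ℝ), Dat n p a α β b α' β' →
  ∀ (Ω : Set (E n)) (f : E n → E n), Mor p a b Ω f → ∀ G : Set (E n), IsOpen G →
  IsCompact (closure G) → closure G ⊆ Ω → ∃ C : ℝ, 0 < C ∧ ∀ (ζ : E n) (ε : ℝ), 0 < ε →
    ∃ (θ : E n → ℝ) (v : E n → E n), IsSob volume p G θ v ∧ ContinuousOn θ G ∧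
      (∀ x ∈ G, f x = ζ → θ x = 0) ∧ (∀ x ∈ G, ε ≤ dist (f x) ζ → θ x = 1) ∧
      ∫ x in G, ‖v x‖ ^ p ≤ C * ε ^ ((n : ℝ) - p)

/-- MASS -/
def MassStatement : Prop := ∀ (n : ℕ) (p : ℝ) (a : E n → E n → E n) (α β : ℝ)
  (b : E n → E n → E n) (α' β' : ℝ), Dat n p a α β b α' β' →
  ∀ (Ω : Set (E n)) (f : E n → E n), Mor p a b Ω f → ∀ K : Set (E n), IsCompact K → K ⊆ Ω →
  ∃ C : ℝ, 0 < C ∧ ∀ (ζ : E n) (s : Finset (E n)), (∀ x ∈ s, x ∈ K) →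
  (∀ x ∈ s, f x = ζ ∧ DifferentiableAt ℝ f x) → ∑ x ∈ s, ‖fderiv ℝ f x‖ ^ (p - n) ≤ C

/-- DISC -/
def DiscStatement : Prop := ∀ (n : ℕ) (p : ℝ) (a : E n → E n → E n) (α β : ℝ)
  (b : E n → E n → E n) (α' β' : ℝ), Dat n p a α β b α' β' →
  ∀ (Ω : Set (E n)) (f : E n → E n), Mor p a b Ω f → ∀ K : Set (E n), IsCompact K → K ⊆ Ω →
  ∀ c r₀ : ℝ, 0 < c → 0 < r₀ →
  (∀ x ∈ K, ∀ r : ℝ, 0 < r → r < r₀ → ∃ z ∈ closedBall x r, c * r ≤ dist (f z) (f x)) →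
  ∃ N : ℕ, ∀ (ζ : E n) (s : Finset (E n)), (∀ x ∈ s, x ∈ K) → (∀ x ∈ s, f x = ζ) → s.card ≤ N

/-- ED: transport of integrals -/
def EdStatement : Prop := ∀ (n : ℕ) (p c C : ℝ) (f : E n → E n) (S : Set (E n)), 1 ≤ n →
  (n : ℝ) < p → 0 < c → 0 < C → Measurable f → MeasurableSet S →
  (∀ x ∈ S, DifferentiableAt ℝ f x) →
  (∀ x ∈ S, ∀ η : E n, c * ‖fderiv ℝ f x‖ * ‖η‖ ≤ ‖Dt f x η‖) →
  (∀ (ζ : E n) (s : Finset (E n)), (∀ x ∈ s, x ∈ S) → (∀ x ∈ s, f x = ζ) →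
    ∑ x ∈ s, ‖fderiv ℝ f x‖ ^ (p - n) ≤ C) →
  ∀ g : E n → ℝ≥0∞, Measurable g →
    ∫⁻ x in S, g (f x) * ENNReal.ofReal (‖fderiv ℝ f x‖ ^ p) ≤
      ENNReal.ofReal (C / c ^ n) * ∫⁻ z, g z

/-- LEB -/
def LebStatement : Prop := ∀ (n : ℕ) (p : ℝ) (a : E n → E n → E n) (α β : ℝ),
  Op p volume a α β → ∀ᵐ x₀ : E n, IsLeb a x₀

/-- STAB -/
def StabStatement : Prop := ∀ (n : ℕ) (p : ℝ) (b : E n → E n → E n) (α β : ℝ) (x₀ : E n)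
  (s : ℝ) (v₀ : E n → ℝ), 1 ≤ n → Op p volume b α β → IsLeb b x₀ → 0 < s → ContDiff ℝ 1 v₀ →
  (∀ δ : ℝ, 0 < δ → ∀ᶠ r : ℝ in 𝓝[>] 0, ∃ v : E n → ℝ,
    Harm volume p (fun y ξ => b (x₀ + r • y) ξ) (ball 0 s) v ∧
      ∀ y ∈ ball (0 : E n) s, |v y - v₀ y| ≤ δ) →
    ∀ φ : E n → ℝ, Test (ball 0 s) φ → ∫ y, ⟪b x₀ (∇ v₀ y), ∇ φ y⟫ = 0

/-- DIRAPP -/
def DirappStatement : Prop := ∀ (n : ℕ) (p : ℝ) (a : E n → E n → E n) (α β : ℝ) (z₀ : E n)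
  (s : ℝ) (u₀ : E n → ℝ), 2 ≤ n → (n : ℝ) < p → Op p volume a α β → IsLeb a z₀ → 0 < s →
  ContDiff ℝ 1 u₀ → (∀ φ : E n → ℝ, Test (ball 0 s) φ → ∫ y, ⟪a z₀ (∇ u₀ y), ∇ φ y⟫ = 0) →
  ∀ δ : ℝ, 0 < δ → ∀ᶠ r : ℝ in 𝓝[>] 0, ∃ u : E n → ℝ,
    Harm volume p (fun y ξ => a (z₀ + r • y) ξ) (ball 0 s) u ∧
      ∀ y ∈ ball (0 : E n) s, |u y - u₀ y| ≤ δ

/-- the derivative of `⟪B(e + t e'), e'⟫` with respect to `⟪A(e + t e'), e'⟫` -/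
def RatD {n : ℕ} (A B : E n → E n) : Prop := ∀ e e' : E n, ‖e‖ = 1 → ‖e'‖ = 1 → ⟪e, e'⟫ = 0 →
  ∀ t₀ : ℝ, Tendsto (fun t : ℝ => ⟪B (e + t • e') - B (e + t₀ • e'), e'⟫ /
    ⟪A (e + t • e') - A (e + t₀ • e'), e'⟫) (𝓝[≠] t₀)
      (𝓝 (⟪B (e + t₀ • e'), e + t₀ • e'⟫ / ⟪A (e + t₀ • e'), e + t₀ • e'⟫))

/-- RIGA -/
def RigaStatement : Prop := ∀ (n : ℕ) (p : ℝ) (A B : E n → E n), 2 ≤ n → 1 < p → Frz p A →
  Frz p B → (∀ (s : ℝ) (u : E n → ℝ), 0 < s → ContDiff ℝ 1 u →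
    (∀ φ : E n → ℝ, Test (ball 0 s) φ → ∫ x, ⟪A (∇ u x), ∇ φ x⟫ = 0) →
    ∃ t : ℝ, 0 < t ∧ ∀ φ : E n → ℝ, Test (ball 0 t) φ → ∫ x, ⟪B (∇ u x), ∇ φ x⟫ = 0) →
  RatD A B

/-- RIGB -/
def RigbStatement : Prop := ∀ (n : ℕ) (p : ℝ) (A B : E n → E n), 2 ≤ n → 2 < p → Frz p A →
  Frz p B → RatD A B → ∃ m : ℝ, 0 < m ∧ ∀ ξ, B ξ = m • A ξ

/-- FROZ -/
def FrozStatement : Prop := ∀ (n : ℕ) (p : ℝ) (a : E n → E n → E n) (α β : ℝ)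
  (b : E n → E n → E n) (α' β' : ℝ), Dat n p a α β b α' β' →
  ∀ (Ω : Set (E n)) (f : E n → E n), Mor p a b Ω f → ∀ (x : E n) (c : ℝ), x ∈ Ω → 0 < c →
  DifferentiableAt ℝ f x → fderiv ℝ f x ≠ 0 →
  (∀ η : E n, c * ‖fderiv ℝ f x‖ * ‖η‖ ≤ ‖Dt f x η‖) → IsLeb b x → IsLeb a (f x) →
    ∃ m : ℝ, 0 < m ∧ ∀ ξ, fderiv ℝ f x (b x (Dt f x ξ)) = m • a (f x) ξ

/-- REGA -/
def RegaStatement : Prop := ∀ (n : ℕ) (p : ℝ) (a : E n → E n → E n) (α β : ℝ)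
  (b : E n → E n → E n) (α' β' : ℝ), Dat n p a α β b α' β' →
  ∀ (Ω : Set (E n)) (f : E n → E n), Mor p a b Ω f → ∃ (m : E n → ℝ) (c C : ℝ),
    Reg p a b Ω f m c C

/-- CHAINF -/
def ChainfStatement : Prop := ∀ (n : ℕ) (p : ℝ) (a b : E n → E n → E n) (Ω : Set (E n))
  (f : E n → E n) (m : E n → ℝ) (c C : ℝ) (V : Set (E n)) (u : E n → ℝ) (U : E n → E n),
  1 ≤ n → (n : ℝ) < p → Reg p a b Ω f m c C → IsOpen V → ContinuousOn u V →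
  LocSob volume p V u U → LocSob volume p (Ω ∩ f ⁻¹' V) (u ∘ f) fun x => Dt f x (U (f x))

/-- TYX -/
def TyxStatement : Prop := ∀ (n : ℕ) (p : ℝ) (a : E n → E n → E n) (α β : ℝ)
  (b : E n → E n → E n) (α' β' : ℝ), Dat n p a α β b α' β' →
  ∀ (Ω : Set (E n)) (f : E n → E n) (m : E n → ℝ) (c C : ℝ), Mor p a b Ω f →
  Reg p a b Ω f m c C → ∀ φ : E n → ℝ, (∀ x, 0 ≤ φ x) → LipC Ω φ →
  ∃ (T : E n → ℝ) (Y : E n → E n) (R : ℝ), TY p a T Y R ∧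
    ∫ z, Y z = ∫ x, m x • (Dt f x).inverse (∇ φ x)

/-! ### C. Second part: the transferred function -/

/-- SOLVE -/
def SolveStatement : Prop := ∀ (n : ℕ) (p : ℝ) (a : E n → E n → E n) (α β R : ℝ)
  (H : E n → E n), 1 ≤ n → (n : ℝ) < p → Op p volume a α β → 0 < R →
  MemLp H (ENNReal.ofReal (dx p)) (volume.restrict (ball 0 R)) →
    ∃ (u : E n → ℝ) (U : E n → E n), Sol p a R H u U

/-- SBOUND -/
def SboundStatement : Prop := ∀ (n : ℕ) (p : ℝ) (a : E n → E n → E n) (α β R : ℝ)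
  (H : E n → E n) (u : E n → ℝ) (U : E n → E n), 1 ≤ n → (n : ℝ) < p → Op p volume a α β →
  0 < R → MemLp H (ENNReal.ofReal (dx p)) (volume.restrict (ball 0 R)) → Sol p a R H u U →
    (∫ x, ‖a x (U x)‖ ^ dx p) ^ (1 / dx p) ≤
      β / α * (∫ x in ball 0 R, ‖H x‖ ^ dx p) ^ (1 / dx p)

/-- SCONT -/
def ScontStatement : Prop := ∀ (n : ℕ) (p : ℝ) (a : E n → E n → E n) (α β R : ℝ)
  (H : E n → E n) (Hs : ℕ → E n → E n) (u : E n → ℝ) (U : E n → E n) (us : ℕ → E n → ℝ)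
  (Us : ℕ → E n → E n) (Y : E n → E n), 1 ≤ n → (n : ℝ) < p → Op p volume a α β → 0 < R →
  MemLp H (ENNReal.ofReal (dx p)) (volume.restrict (ball 0 R)) →
  (∀ j, MemLp (Hs j) (ENNReal.ofReal (dx p)) (volume.restrict (ball 0 R))) →
  Tendsto (fun j => eLpNorm (fun x => Hs j x - H x) (ENNReal.ofReal (dx p))
    (volume.restrict (ball 0 R))) atTop (𝓝 0) →
  Sol p a R H u U → (∀ j, Sol p a R (Hs j) (us j) (Us j)) → MemLp Y (ENNReal.ofReal p) volume →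
    Tendsto (fun j => ∫ x, ⟪a x (Us j x), Y x⟫) atTop (𝓝 (∫ x, ⟪a x (U x), Y x⟫))

/-- KER -/
def KerStatement : Prop := ∀ (n : ℕ) (p R : ℝ), 2 ≤ n → (n : ℝ) < p → 0 < R →
  (∀ z : E n, MemLp (ker z) (ENNReal.ofReal (dx p)) (volume.restrict (ball 0 R))) ∧
  (∀ ε : ℝ, 0 < ε → ∃ δ : ℝ, 0 < δ ∧ ∀ z z' : E n, ‖z‖ ≤ R → ‖z'‖ ≤ R → dist z z' < δ →
    eLpNorm (fun x => ker z x - ker z' x) (ENNReal.ofReal (dx p)) (volume.restrict (ball 0 R)) ≤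
      ENNReal.ofReal ε) ∧
  (∀ (z : E n) (ψ : E n → ℝ), Test univ ψ → ∫ x, ⟪ker z x, ∇ ψ x⟫ = ψ z) ∧
  ∀ (z : E n) (ψ : E n → ℝ) (V : E n → E n), H0 volume p (ball 0 R) ψ V → Continuous ψ →
    ∫ x, ⟪ker z x, V x⟫ = ψ z

/-- PGROW -/
def PgrowStatement : Prop := ∀ (n : ℕ) (p : ℝ) (a : E n → E n → E n) (α β R : ℝ)
  (s : Finset (E n)) (w : E n → ℝ) (u : E n → ℝ) (U : E n → E n), 2 ≤ n → (n : ℝ) < p →
  Op p volume a α β → 0 < R → (∀ z ∈ s, z ∈ ball 0 R) →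
  Sol p a R (fun x => ∑ z ∈ s, w z • ker z x) u U → ∀ z ∈ s, ∃ C r₀ : ℝ, 0 < r₀ ∧
    ∀ r : ℝ, 0 < r → r < r₀ → ∫ x in ball z r, ‖U x‖ ^ p ≤ C * r ^ al n p

/-- POLE -/
def PoleStatement : Prop := ∀ (n : ℕ) (p : ℝ) (a : E n → E n → E n) (α β R R' : ℝ)
  (s : Finset (E n)) (w : E n → ℝ) (u : E n → ℝ) (U : E n → E n) (T : E n → ℝ)
  (Y : E n → E n), 2 ≤ n → (n : ℝ) < p → Op p volume a α β → TY p a T Y R' → R' < R →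
  (∀ z ∈ s, z ∈ ball 0 R) → (∀ z ∈ s, LebPt T z) →
  Sol p a R (fun x => ∑ z ∈ s, w z • ker z x) u U →
    ∫ x, ⟪a x (U x), Y x⟫ = ∑ z ∈ s, w z * T z

/-- RIEM -/
def RiemStatement : Prop := ∀ (n : ℕ) (p : ℝ) (a : E n → E n → E n) (α β R R' : ℝ)
  (g : E n → ℝ) (u : E n → ℝ) (U : E n → E n) (T : E n → ℝ) (Y : E n → E n), 2 ≤ n →
  (n : ℝ) < p → Op p volume a α β → TY p a T Y R' → R' < R → Continuous g →
  tsupport g ⊆ ball 0 R → Sol p a R (fun x => ∫ z, g z • ker z x) u U →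
    ∫ x, ⟪a x (U x), Y x⟫ = ∫ z, g z * T z

/-- DUAL -/
def DualStatement : Prop := ∀ (n : ℕ) (p : ℝ) (a : E n → E n → E n) (α β R R' : ℝ)
  (T : E n → ℝ) (Y : E n → E n), 2 ≤ n → (n : ℝ) < p → Op p volume a α β →
  TY p a T Y R' → R' < R → ∃ G : E n → E n, H0 volume p (ball 0 R) T G ∧
    ∀ (u : E n → ℝ) (U : E n → E n), H0 volume p (ball 0 R) u U →
      ∫ x, ⟪a x (U x), G x - Y x⟫ = 0

/-- OSCP: oscillating test functions -/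
def OscpStatement : Prop := ∀ (n : ℕ) (p : ℝ) (a : E n → E n → E n) (α β R : ℝ)
  (D : E n → E n), 2 < p → Op p volume a α β → 0 < R → MemLp D (ENNReal.ofReal p) volume →
  (∀ (u : E n → ℝ) (U : E n → E n), H0 volume p (ball 0 R) u U →
    ∫ x, ⟪a x (U x), D x⟫ = 0) → ∀ᵐ x : E n, x ∈ ball 0 R → D x = 0

/-- TZ -/
def TzStatement : Prop := ∀ (n : ℕ) (p : ℝ) (a : E n → E n → E n) (α β R : ℝ)
  (T : E n → ℝ) (Y : E n → E n), 2 ≤ n → (n : ℝ) < p → Op p volume a α β → TY p a T Y R →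
    ∫ z, Y z = 0

/-! ### D. Third part: mixed forms -/

/-- SIGZ: the data of the third part; `P(0)` -/
def SigzStatement : Prop := ∀ (N : ℕ) (p : ℝ) (a : E (N + 1) → E (N + 1) → E (N + 1)) (α β : ℝ)
  (b : E (N + 1) → E (N + 1) → E (N + 1)) (α' β' : ℝ), Dat (N + 1) p a α β b α' β' →
  ∀ (Ω : Set (E (N + 1))) (f : E (N + 1) → E (N + 1)) (m : E (N + 1) → ℝ) (c C : ℝ),
  Mor p a b Ω f → Reg p a b Ω f m c C →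
    Sig p Ω f ∧ SigF p Ω f (fun x => m x / (fderiv ℝ f x).det) ∧
      PP Ω f (fun x => m x / (fderiv ℝ f x).det) 0

/-- GEO -/
def GeoStatement : Prop := ∀ (N : ℕ) (p : ℝ) (Ω : Set (E (N + 1)))
  (f : E (N + 1) → E (N + 1)), Sig p Ω f → ∀ K : Set (E (N + 1)), IsCompact K → K ⊆ Ω →
  ∃ (G : Set (E (N + 1))) (C : ℝ), IsCompact G ∧ G ⊆ Ω ∧ 0 < C ∧
  ∀ (z : E (N + 1)) (ε : ℝ) (s : Finset (E (N + 1))), 0 < ε →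
  (∀ x ∈ s, x ∈ K ∧ dist (f x) z < ε) →
  ((s : Set (E (N + 1))).PairwiseDisjoint (Cp Ω f z ε)) →
    ∑ x ∈ s, (diam (Cp Ω f z ε x ∩ K) / ε) ^ (p / (p - N)) *
      ∫ y in Cp Ω f z ε x ∩ K, ‖fderiv ℝ f y‖ ^ p ≤
        C * volume.real (G ∩ f ⁻¹' ball z (2 * ε))

/-- the good points -/
structure GoodPt {n : ℕ} (p : ℝ) (Ω : Set (E n)) (f : E n → E n) (M η ε₀ : ℝ) (x : E n) :
    Prop where
  diff : DifferentiableAt ℝ f x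
  upper : ‖fderiv ℝ f x‖ ≤ M
  lower : ∀ v : E n, ‖v‖ ≤ M * ‖fderiv ℝ f x v‖
  sub : ∀ ε : ℝ, 0 < ε → ε < ε₀ → closedBall x (4 * M * ε) ⊆ Ω
  near : ∀ ε : ℝ, 0 < ε → ε < ε₀ → ∀ y ∈ closedBall x (4 * M * ε),
    ‖f y - f x - fderiv ℝ f x (y - x)‖ ≤ η * ε
  mean : ∀ ε : ℝ, 0 < ε → ε < ε₀ →
    ∫ y in ball x (4 * M * ε), ‖fderiv ℝ f y - fderiv ℝ f x‖ ^ p ≤ η * ε ^ n

/-- EGO -/
def EgoStatement : Prop := ∀ (N : ℕ) (p : ℝ) (Ω : Set (E (N + 1)))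
  (f : E (N + 1) → E (N + 1)), Sig p Ω f → ∀ K : Set (E (N + 1)), IsCompact K → K ⊆ Ω →
  ∀ δ : ℝ, 0 < δ → ∃ M : ℝ, 1 ≤ M ∧ ∀ η : ℝ, 0 < η → ∃ (A : Set (E (N + 1))) (ε₀ : ℝ),
    MeasurableSet A ∧ A ⊆ K ∧ 0 < ε₀ ∧
    volume.real {x | x ∈ K ∧ x ∉ A ∧ fderiv ℝ f x ≠ 0} ≤ δ ∧
    ∀ x ∈ A, GoodPt p Ω f M η ε₀ x

/-- partitions of unity with centres `z ∈ s` at scale `ε` -/
structure PU {n : ℕ} (C ε : ℝ) (K : Set (E n)) (s : Finset (E n)) (ψ : E n → E n → ℝ) :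
    Prop where
  smooth : ∀ z ∈ s, ContDiff ℝ ∞ (ψ z)
  mem : ∀ z ∈ s, ∀ x, ψ z x ∈ Icc (0 : ℝ) 1
  supp : ∀ z ∈ s, tsupport (ψ z) ⊆ closedBall z (ε / 2)
  grad : ∀ z ∈ s, ∀ x, ‖∇ (ψ z) x‖ ≤ C / ε
  sum : ∀ x ∈ K, ∑ z ∈ s, ψ z x = 1
  ovl : ∀ (x : E n) (t : Finset (E n)), t ⊆ s → (∀ z ∈ t, dist x z < 2 * ε) → (t.card : ℝ) ≤ C

/-- PART -/
def PartStatement : Prop := ∀ n : ℕ, ∃ C : ℝ, 0 < C ∧ ∀ (K : Set (E n)) (ε : ℝ), IsCompact K →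
  0 < ε → ∃ (s : Finset (E n)) (ψ : E n → E n → ℝ), PU C ε K s ψ

/-- CPF: finitely many components -/
def CpfStatement : Prop := ∀ (n : ℕ) (Ω : Set (E n)) (f : E n → E n) (K : Set (E n)) (z : E n)
  (ε : ℝ), IsOpen Ω → ContinuousOn f Ω → IsCompact K → K ⊆ Ω → 0 < ε →
  ∃ t : Finset (E n), (∀ y ∈ t, y ∈ K ∧ dist (f y) z ≤ ε / 2) ∧
    (t : Set (E n)).PairwiseDisjoint (Cp Ω f z ε) ∧
    ∀ x ∈ K, dist (f x) z ≤ ε / 2 → ∃ y ∈ t, x ∈ Cp Ω f z ε y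

/-- `x_j - t - ⟪l, f x⟫` -/
noncomputable def ew {n : ℕ} (f : E n → E n) (j : Fin n) (l : E n) (t : ℝ) (x : E n) : ℝ :=
  x j - t - ⟪l, f x⟫

/-- the local form of `∫ σ det [∇(q(f) φ), ...]` over a component -/
noncomputable def Loc {N : ℕ} (f : E (N + 1) → E (N + 1)) (σ : E (N + 1) → ℝ)
    (w : Fin N → Fin (N + 1) ⊕ Fin (N + 1)) (i : Fin N) (j : Fin (N + 1))
    (φ q : E (N + 1) → ℝ) (W : Set (E (N + 1))) (l : E (N + 1)) (t : ℝ) : ℝ :=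
  ∫ x in W, σ x * (q (f x) * mdet2 f x w i (∇ φ x) (EuclideanSpace.single j 1 - Dt f x l) -
    ew f j l t x * mdet2 f x w i (Dt f x (∇ q (f x))) (∇ φ x))

/-- ALG -/
def AlgStatement : Prop := ∀ (N : ℕ) (p : ℝ) (Ω : Set (E (N + 1)))
  (f : E (N + 1) → E (N + 1)) (σ : E (N + 1) → ℝ) (k : ℕ), Sig p Ω f → SigF p Ω f σ →
  PP Ω f σ k → ∀ (w : Fin N → Fin (N + 1) ⊕ Fin (N + 1)) (i : Fin N) (j : Fin (N + 1)),
  w i = Sum.inl j → nl w ≤ k + 1 → ∀ φ : E (N + 1) → ℝ, LipC Ω φ →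
  ∀ (z : E (N + 1)) (ε : ℝ) (q : E (N + 1) → ℝ) (y l : E (N + 1)) (t : ℝ), 0 < ε →
  Test (ball z ε) q →
    LipC Ω ((Cp Ω f z ε y).indicator fun x => q (f x) * φ x) ∧
    ∫ x, σ x * mdet f x w (∇ ((Cp Ω f z ε y).indicator fun x => q (f x) * φ x) x) =
      Loc f σ w i j φ q (Cp Ω f z ε y) l t

/-- GOODE: good components -/
def GoodeStatement : Prop := ∀ (N : ℕ) (p : ℝ) (Ω : Set (E (N + 1)))
  (f : E (N + 1) → E (N + 1)) (σ : E (N + 1) → ℝ), Sig p Ω f → SigF p Ω f σ →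
  ∀ (w : Fin N → Fin (N + 1) ⊕ Fin (N + 1)) (i : Fin N) (j : Fin (N + 1))
  (φ : E (N + 1) → ℝ) (M C₁ : ℝ), LipC Ω φ → 1 ≤ M → 0 < C₁ → ∃ C : ℝ, 0 < C ∧
  ∀ (η ε₀ ε : ℝ) (x z : E (N + 1)) (q : E (N + 1) → ℝ), 0 < η → η ≤ 1 / 4 → 0 < ε → ε < ε₀ →
  GoodPt p Ω f M η ε₀ x → dist (f x) z ≤ ε / 2 → Test (ball z ε) q → (∀ y, |q y| ≤ 1) →
  (∀ y, ‖∇ q y‖ ≤ C₁ / ε) →
    ball x (ε / (4 * M)) ⊆ Cp Ω f z ε x ∧ ∃ (l : E (N + 1)) (t : ℝ),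
      |Loc f σ w i j φ q (Cp Ω f z ε x) l t| ≤ C * (η ^ (1 / p) + η) * ε ^ (N + 1)

/-- BADE: bad components -/
def BadeStatement : Prop := ∀ (N : ℕ) (p : ℝ) (Ω : Set (E (N + 1)))
  (f : E (N + 1) → E (N + 1)) (σ : E (N + 1) → ℝ), Sig p Ω f → SigF p Ω f σ →
  ∀ (w : Fin N → Fin (N + 1) ⊕ Fin (N + 1)) (i : Fin N) (j : Fin (N + 1))
  (φ : E (N + 1) → ℝ) (K : Set (E (N + 1))) (C₁ : ℝ), w i = Sum.inl j → LipC Ω φ →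
  IsCompact K → K ⊆ Ω → tsupport φ ⊆ K → 0 < C₁ → ∃ C : ℝ, 0 < C ∧
  ∀ (ε : ℝ) (s : Finset (E (N + 1))) (ψ : E (N + 1) → E (N + 1) → ℝ) (L : Set (E (N + 1)))
  (t : E (N + 1) → Finset (E (N + 1))) (A : Set (E (N + 1))), 0 < ε → PU C₁ ε L s ψ →
  MeasurableSet A → (∀ z ∈ s, ∀ y ∈ t z, y ∈ K ∧ dist (f y) z ≤ ε / 2) →
  (∀ z ∈ s, (t z : Set (E (N + 1))).PairwiseDisjoint (Cp Ω f z ε)) →
  (∀ z ∈ s, ∀ y ∈ t z, ∀ x ∈ Cp Ω f z ε y, x ∈ K → dist (f x) z ≤ ε / 2 → x ∉ A) →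
    ∑ z ∈ s, ∑ y ∈ t z, |Loc f σ w i j φ (ψ z) (Cp Ω f z ε y) 0 (y j)| ≤
      C * (volume.real {x | x ∈ K ∧ x ∉ A ∧ fderiv ℝ f x ≠ 0} +
        volume.real {x | x ∈ K ∧ x ∉ A ∧ fderiv ℝ f x ≠ 0} ^ ((nl w : ℝ) / p))

/-- STEP -/
def StepStatement : Prop := ∀ (N : ℕ) (p : ℝ) (Ω : Set (E (N + 1)))
  (f : E (N + 1) → E (N + 1)) (σ : E (N + 1) → ℝ) (k : ℕ), Sig p Ω f → SigF p Ω f σ →
  PP Ω f σ k → PP Ω f σ (k + 1)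

/-- CONST -/
def ConstStatement : Prop := ∀ (N : ℕ) (p : ℝ) (Ω : Set (E (N + 1)))
  (f : E (N + 1) → E (N + 1)) (σ : E (N + 1) → ℝ), Sig p Ω f → SigF p Ω f σ →
  IsPreconnected Ω → PP Ω f σ N → ∃ κ : ℝ, ∀ᵐ x : E (N + 1), x ∈ Ω → σ x = κ

/-! ### E. Conclusion -/

/-- mappings of locally bounded length distortion, with bounded fibres in compact sets -/
structure BLD {n : ℕ} (Ω : Set (E n)) (f : E n → E n) : Prop where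
  loclip : LocLip Ω f
  der : ∀ K : Set (E n), IsCompact K → K ⊆ Ω → ∃ c C : ℝ, 0 < c ∧ ∀ᵐ x : E n, x ∈ K →
    DifferentiableAt ℝ f x ∧
      ∀ v : E n, c * ‖v‖ ≤ ‖fderiv ℝ f x v‖ ∧ ‖fderiv ℝ f x v‖ ≤ C * ‖v‖
  disc : ∀ K : Set (E n), IsCompact K → K ⊆ Ω → ∃ N : ℕ, ∀ (ζ : E n) (s : Finset (E n)),
    (∀ x ∈ s, x ∈ K) → (∀ x ∈ s, f x = ζ) → s.card ≤ N

/-- CONCL -/
def ConclStatement : Prop := ∀ (n : ℕ) (p : ℝ) (a : E n → E n → E n) (α β : ℝ)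
  (b : E n → E n → E n) (α' β' : ℝ), Dat n p a α β b α' β' →
  ∀ (Ω : Set (E n)) (f : E n → E n), Mor p a b Ω f → IsPreconnected Ω →
    (f '' Ω).Subsingleton ∨ BLD Ω f

/-- `w` is bounded above and below near `x` -/
def Bdd {n : ℕ} (w : E n → ℝ) (x : E n) : Prop := ∃ c C r : ℝ, 0 < c ∧ 0 < r ∧
  ∀ᵐ y : E n, y ∈ ball x r → c ≤ w y ∧ w y ≤ C

/-- LOCM: localisation; the operators are changed away from `x` and `f x` -/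
def LocmStatement : Prop := ∀ (n : ℕ) (p : ℝ) (w : E n → ℝ) (A : E n → E n → E n)
  (w' : E n → ℝ) (A' : E n → E n → E n) (Ω : Set (E n)) (f : E n → E n) (x : E n), 2 ≤ n →
  (n : ℝ) < p → ClassA p w A → ClassA p w' A' → IsOpen Ω → IsMorphism p w' A' w A Ω f →
  x ∈ Ω → Bdd w' x → Bdd w (f x) → ∃ (r : ℝ) (a : E n → E n → E n) (α β : ℝ)
    (b : E n → E n → E n) (α' β' : ℝ), 0 < r ∧ ball x r ⊆ Ω ∧ Dat n p a α β b α' β' ∧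
      Mor p a b (ball x r) ((ball x r).indicator f)

/-- the final statement -/
def FinalStatement : Prop := ∀ (n : ℕ) (p : ℝ) (w : E n → ℝ) (A : E n → E n → E n)
  (w' : E n → ℝ) (A' : E n → E n → E n) (Ω Ω₁ : Set (E n)) (f : E n → E n), 2 ≤ n →
  (n : ℝ) < p → ClassA p w A → ClassA p w' A' → IsOpen Ω → IsMorphism p w' A' w A Ω f →
  IsOpen Ω₁ → IsPreconnected Ω₁ → Ω₁ ⊆ Ω → Ω ⊆ closure Ω₁ →
  (∀ x ∈ Ω₁, Bdd w' x ∧ Bdd w (f x)) →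
    (f '' Ω).Subsingleton ∨
      ((∀ U : Set (E n), IsOpen U → U ⊆ Ω → IsOpen (f '' U)) ∧ BLD Ω₁ f)

end Pool.Agent.Lib.MP_abd978_an.UN
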